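import Pool.Agent.V1190.Thin.Main

set_option autoImplicit false

/-!
# MP_0e8110: thin rays and unbounded integer cubic minimization

For every `n`, every rational polyhedron `P ⊆ ℝ^n` and every cubic function `f` (real coefficients)
the function `f` is unbounded below on the integer points of `P` if and only if `P` has an unbounded
thin ray for `f`.
-/

open Set Metric
open scoped Pointwise

namespace Pool.Agent.Results.MP_0e8110_lc.ThinRays

/-- Euclidean space `ℝ^n`. -/
abbrev E (n : ℕ) : Type := EuclideanSpace ℝ (Fin n)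

/-- `P = {x : A x ≤ b}` with rational `A` and `b`. -/
def IsRationalPolyhedron {n : ℕ} (P : Set (E n)) : Prop :=
  ∃ (m : ℕ) (A : Matrix (Fin m) (Fin n) ℚ) (b : Fin m → ℚ),
    P = {x | ∀ i, ∑ j, (A i j : ℝ) * x j ≤ (b i : ℝ)}

/-- The integer points of `ℝ^n`. -/
def integerPoints (n : ℕ) : Set (E n) := {x | ∀ j, ∃ z : ℤ, x j = z}

/-- The ray `R(y, d) = {y + s d : s ≥ 0}`. -/
def ray {n : ℕ} (y d : E n) : Set (E n) := {x | ∃ s : ℝ, 0 ≤ s ∧ x = y + s • d}

/-- A cubic function: a real polynomial of degree at most three. -/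
def IsCubic {n : ℕ} (f : E n → ℝ) : Prop :=
  ∃ p : MvPolynomial (Fin n) ℝ, p.totalDegree ≤ 3 ∧ ∀ x, f x = MvPolynomial.eval (fun j => x j) p

/-- `f` is unbounded below on `S`: the infimum of `f` over `S` is `-∞`. -/
def UnboundedBelow {n : ℕ} (f : E n → ℝ) (S : Set (E n)) : Prop := ∀ M : ℝ, ∃ x ∈ S, f x < M

/-- `R(y, d)` is a ray of `P` (`d ≠ 0`), and for every `ε > 0` the function `f` is unbounded below on
the integer points of `P` at distance at most `ε` from the ray. -/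
def IsUnboundedThinRay {n : ℕ} (P : Set (E n)) (f : E n → ℝ) (y d : E n) : Prop :=
  d ≠ 0 ∧ ray y d ⊆ P ∧
    ∀ ε > 0, UnboundedBelow f (P ∩ integerPoints n ∩ (ray y d + closedBall 0 ε))

/-- **Unbounded thin rays characterise unbounded integer cubic minimization in all dimensions.** -/
theorem result (n : ℕ) (P : Set (E n)) (hP : IsRationalPolyhedron P) (f : E n → ℝ)
    (hf : IsCubic f) :
    UnboundedBelow f (P ∩ integerPoints n) ↔ ∃ y d, IsUnboundedThinRay P f y d := by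
  obtain ⟨m, A, b, rfl⟩ := hP
  obtain ⟨p, hp, hfp⟩ := hf
  constructor
  · intro h
    obtain ⟨y, d, hd, hray, hthin⟩ := Pool.Agent.V1190.Thin.thin_main (fun i j => A i j) b p hp
      (fun M => by
        obtain ⟨x, ⟨hx1, hx2⟩, hx3⟩ := h M
        exact ⟨x, hx1, hx2, by rw [← hfp]; exact hx3⟩)
    refine ⟨y, d, hd, ?_, fun ε hε M => ?_⟩
    · rintro x ⟨s, hs, rfl⟩
      exact hray s hs
    · obtain ⟨x, hx1, hx2, ⟨s, hs, hx3⟩, hx4⟩ := hthin ε hε M
      refine ⟨x, ⟨⟨hx1, hx2⟩, ?_⟩, by rw [hfp]; exact hx4⟩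
      refine Set.mem_add.2 ⟨y + s • d, ⟨s, hs, rfl⟩, x - (y + s • d), ?_, by abel⟩
      simpa using hx3
  · rintro ⟨y, d, -, -, h⟩ M
    obtain ⟨x, ⟨hx, -⟩, hM⟩ := h 1 one_pos M
    exact ⟨x, hx, hM⟩

end Pool.Agent.Results.MP_0e8110_lc.ThinRays
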